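import Pool.Agent.helper69.AD.GS1

/-! Module BD8 of the project ad (MP_a29257_gt): hyperbolic elements. -/

open scoped MatrixGroups LinearAlgebra.Projectivization
open Matrix UpperHalfPlane

namespace AdSBend

theorem BD8_smul_eq (g : SL(2, ℝ)) (v : Fin 2 → ℝ) : g • v = g.1 *ᵥ v := rfl

theorem BD8_neg_smul (g : SL(2, ℝ)) (x : Bd) : (-g) • x = g • x := by
  induction x using Projectivization.ind with | _ v hv =>
  rw [Projectivization.smul_mk, Projectivization.smul_mk, Projectivization.mk_eq_mk_iff']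
  refine ⟨-1, ?_⟩
  have e : (-g) • v = -(g • v) := by
    change (-g).1 *ᵥ v = -(g.1 *ᵥ v)
    exact Matrix.neg_mulVec v g.1
  rw [e]
  exact neg_one_smul ℝ (g • v)

theorem BD8_peq_smul {g h : SL(2, ℝ)} (e : PEq g h) (x : Bd) : g • x = h • x := by
  rcases e with rfl | rfl
  · rfl
  · exact BD8_neg_smul h x

theorem BD8_fix (h6 : BD6_stmt) {g F : SL(2, ℝ)} {p : Bd × Bd} (hF : IsFrame F p)
    (h1 : g • p.1 = p.1) (h2 : g • p.2 = p.2) : ∃ s, PEq g (F * Dm s * F⁻¹) := by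
  have hgF : IsFrame (g * F) (g • p.1, g • p.2) := h6.2.2.2.2.2.1 F g p hF
  rw [h1, h2] at hgF
  obtain ⟨t, ht⟩ := h6.2.2.1 F (g * F) p hF hgF
  refine ⟨t, ?_⟩
  rcases ht with h | h
  · exact Or.inl (eq_mul_inv_of_mul_eq h)
  · right
    rw [← neg_mul]
    exact eq_mul_inv_of_mul_eq h

theorem BD8_move (h7 : BD7_stmt) {g F : SL(2, ℝ)} {s : ℝ} (hg : PEq g (F * Dm s * F⁻¹)) (t : ℝ) :
    g • (F • bPt t) = F • bPt (Real.exp s * t) := by
  rw [BD8_peq_smul hg, mul_smul, mul_smul, inv_smul_smul, h7.2.2.2.2.2.2.1 s t]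

theorem BD8_attr_iff (h2 : BD2_stmt) (h6 : BD6_stmt) (h7 : BD7_stmt) {g F : SL(2, ℝ)} {s : ℝ}
    {p : Bd × Bd} (hF : IsFrame F p) (hg : PEq g (F * Dm s * F⁻¹)) : Attracts g p ↔ 0 < s := by
  obtain ⟨k1, k2, k3, k4, k5, k6, k7, k8, k9⟩ := h7
  have h7 : BD7_stmt := ⟨k1, k2, k3, k4, k5, k6, k7, k8, k9⟩
  have hp1 : p.1 = F • bInf := hF.1.symm
  have hp2 : p.2 = F • bPt 0 := by rw [k4]; exact hF.2.symm
  constructor
  · intro h
    have hc := h.2.2.2 (F • bPt 1) ((k1 F p _ hF).2.2 ⟨1, one_pos, rfl⟩)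
    rw [BD8_move h7 hg, hp2, h2, k5, mul_one] at hc
    have he := Real.exp_pos s
    rcases hc with h | h | h
    · exact Real.one_lt_exp_iff.1 h.2
    · linarith [h.2]
    · linarith [h.1]
  · intro hs
    have h1 : 1 < Real.exp s := Real.one_lt_exp_iff.2 hs
    refine ⟨h6.2.1 F p hF, ?_, ?_, ?_⟩
    · rw [BD8_peq_smul hg, mul_smul, mul_smul]
      conv_lhs => rw [hp1]
      rw [inv_smul_smul, (k8 s).1, ← hp1]
    · rw [BD8_peq_smul hg, mul_smul, mul_smul]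
      conv_lhs => rw [hp2]
      rw [inv_smul_smul, k4, (k8 s).2]
      exact hF.2
    · intro c hc
      obtain ⟨t, ht, rfl⟩ := (k1 F p c hF).2.1 hc
      rw [BD8_move h7 hg, hp2, h2, k5]
      left
      exact ⟨ht, by nlinarith⟩

theorem BD8_trc_comm (a b : SL(2, ℝ)) : trc (a * b) = trc (b * a) := by
  unfold trc
  rw [← Matrix.trace_fin_two, ← Matrix.trace_fin_two]
  exact Matrix.trace_mul_comm a.1 b.1

theorem BD8_trc_conj (F D : SL(2, ℝ)) : trc (F * D * F⁻¹) = trc D := by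
  rw [BD8_trc_comm, inv_mul_cancel_left]

theorem BD8_trc_neg (g : SL(2, ℝ)) : trc (-g) = -trc g := by
  unfold trc
  rw [Matrix.SpecialLinearGroup.coe_neg, Matrix.neg_apply, Matrix.neg_apply]
  ring

theorem BD8_trc_Dm (t : ℝ) : trc (Dm t) = 2 * Real.cosh (t / 2) := by
  unfold trc Dm
  rw [Real.cosh_eq]
  simp
  ring

theorem BD8_Dm_zero : Dm 0 = 1 := by
  ext i j
  fin_cases i <;> fin_cases j <;> simp [Dm]

theorem BD8_Dm_mul (s t : ℝ) : Dm s * Dm t = Dm (s + t) := by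
  ext i j
  fin_cases i <;> fin_cases j <;>
    simp [Dm, ← Real.exp_add] <;> ring_nf

theorem BD8_Dm_inv (s : ℝ) : (Dm s)⁻¹ = Dm (-s) := by
  rw [inv_eq_iff_mul_eq_one, BD8_Dm_mul, add_neg_cancel, BD8_Dm_zero]

theorem BD8_Dm_Rm (s : ℝ) : Dm s * Rm = Rm * Dm (-s) := by
  ext i j
  fin_cases i <;> fin_cases j <;>
    simp [Dm, Rm, neg_div]

theorem BD8_swap (F : SL(2, ℝ)) (s : ℝ) :
    F * Dm s * F⁻¹ = (F * Rm) * Dm (-s) * (F * Rm)⁻¹ := by
  rw [_root_.mul_inv_rev, mul_assoc F Rm, ← BD8_Dm_Rm]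
  group

theorem BD8_pos_len {g F : SL(2, ℝ)} {s : ℝ} (hs : 0 < s) (hg : PEq g (F * Dm s * F⁻¹)) :
    pos g = F * Dm s * F⁻¹ ∧ len g = s ∧ |trc g| = 2 * Real.cosh (s / 2) := by
  have hc : 0 < Real.cosh (s / 2) := Real.cosh_pos _
  have htr : trc (F * Dm s * F⁻¹) = 2 * Real.cosh (s / 2) := by
    rw [BD8_trc_conj, BD8_trc_Dm]
  have habs : |trc g| = 2 * Real.cosh (s / 2) := by
    rcases hg with h | h
    · rw [h, htr, abs_of_pos (by linarith)]
    · rw [h, BD8_trc_neg, htr, abs_neg, abs_of_pos (by linarith)]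
  refine ⟨?_, ?_, habs⟩
  · unfold pos
    rcases hg with h | h
    · rw [if_pos (by rw [h, htr]; linarith), h]
    · rw [if_neg (by rw [h, BD8_trc_neg, htr]; linarith), h, neg_neg]
  · unfold len
    rw [habs]
    have hsh : 0 < Real.sinh (s / 2) := Real.sinh_pos_iff.2 (by linarith)
    have h1 : (2 * Real.cosh (s / 2)) ^ 2 - 4 = (2 * Real.sinh (s / 2)) ^ 2 := by
      have := Real.cosh_sq (s / 2)
      nlinarith
    rw [h1, Real.sqrt_sq (by linarith)]
    have h2 : (2 * Real.cosh (s / 2) + 2 * Real.sinh (s / 2)) / 2 = Real.exp (s / 2) := by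
      rw [← Real.cosh_add_sinh]
      ring
    rw [h2, Real.log_exp]
    ring

theorem BD8_Rm_swap (h2 : BD2_stmt) (h6 : BD6_stmt) (h7 : BD7_stmt) {g F : SL(2, ℝ)} {s : ℝ}
    {p : Bd × Bd} (hF : IsFrame F p) (hg : PEq g (F * Dm s * F⁻¹)) :
    Attracts g (p.2, p.1) ↔ s < 0 := by
  have hF' : IsFrame (F * Rm) (p.2, p.1) := h6.2.2.2.2.1 F p hF
  rw [BD8_swap] at hg
  rw [BD8_attr_iff h2 h6 h7 hF' hg]
  constructor <;> intro h <;> linarith

theorem BD8_inv_peq {g h : SL(2, ℝ)} (e : PEq g h) : PEq g⁻¹ h⁻¹ := by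
  rcases e with rfl | rfl
  · exact Or.inl rfl
  · right
    rw [inv_eq_iff_mul_eq_one, neg_mul_neg, mul_inv_cancel]

/-- an eigenvector for a root of the characteristic polynomial -/
theorem BD8_eigen (g : SL(2, ℝ)) (l : ℝ) (hl : l ^ 2 - trc g * l + 1 = 0) :
    ∃ v : Fin 2 → ℝ, v ≠ 0 ∧ g • v = l • v := by
  have hdet : (g.1 - l • (1 : Matrix (Fin 2) (Fin 2) ℝ)).det = 0 := by
    have hg := g.2
    rw [Matrix.det_fin_two] at hg
    rw [Matrix.det_fin_two]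
    unfold trc at hl
    simp only [Matrix.sub_apply, Matrix.smul_apply, Matrix.one_apply_eq, smul_eq_mul, mul_one,
      Matrix.one_apply_ne (show (0 : Fin 2) ≠ 1 by decide),
      Matrix.one_apply_ne (show (1 : Fin 2) ≠ 0 by decide), mul_zero, sub_zero]
    nlinarith
  obtain ⟨v, hv, h⟩ := Matrix.exists_mulVec_eq_zero_iff.2 hdet
  refine ⟨v, hv, ?_⟩
  rw [Matrix.sub_mulVec, Matrix.smul_mulVec, Matrix.one_mulVec, sub_eq_zero] at h
  exact h

theorem BD8_fixpt {g : SL(2, ℝ)} {v : Fin 2 → ℝ} (hv : v ≠ 0) {l : ℝ}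
    (h : g • v = l • v) :
    g • (Projectivization.mk ℝ v hv : Bd) = Projectivization.mk ℝ v hv := by
  rw [Projectivization.smul_mk, Projectivization.mk_eq_mk_iff']
  exact ⟨l, h.symm⟩

theorem BD8 (h2 : BD2_stmt) (h4 : BD4_stmt) (h5 : BD5_stmt) (h6 : BD6_stmt) (h7 : BD7_stmt) :
    BD8_stmt := by
  have c1 : ∀ (g : SL(2, ℝ)) (p : Bd × Bd), Attracts g p ↔
      ∃ (F : SL(2, ℝ)) (t : ℝ), IsFrame F p ∧ 0 < t ∧ PEq g (F * Dm t * F⁻¹) := by
    intro g p
    constructor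
    · intro h
      obtain ⟨F, hF⟩ := h6.1 p h.1
      obtain ⟨s, hs⟩ := BD8_fix h6 hF h.2.1 h.2.2.1
      exact ⟨F, s, hF, (BD8_attr_iff h2 h6 h7 hF hs).1 h, hs⟩
    · rintro ⟨F, t, hF, ht, hg⟩
      exact (BD8_attr_iff h2 h6 h7 hF hg).2 ht
  have c8 : ∀ (g : SL(2, ℝ)) (p : Bd × Bd) (x : Bd), Attracts g p → g • x = x →
      x = p.1 ∨ x = p.2 := by
    intro g p x h hx
    by_contra hne
    push Not at hne
    have hg := h5 g p.1 p.2 x h.1 (Ne.symm hne.2) hne.1 h.2.1 h.2.2.1 hx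
    obtain ⟨c, hc⟩ := h4.2.2.2.2.2 p.2 p.1 (Ne.symm h.1)
    have h1 := h.2.2.2 c hc
    rw [BD8_peq_smul hg, one_smul] at h1
    exact (h4.1 _ _ _ h1).2.1 rfl
  have c5 : ∀ (g : SL(2, ℝ)) (x y : Bd), x ≠ y → g • x = x → g • y = y → ¬ PEq g 1 →
      Attracts g (x, y) ∨ Attracts g (y, x) := by
    intro g x y hxy hx hy hg
    obtain ⟨F, hF⟩ := h6.1 (x, y) hxy
    obtain ⟨s, hs⟩ := BD8_fix h6 hF hx hy
    rcases lt_trichotomy s 0 with h | h | h
    · exact Or.inr ((BD8_Rm_swap h2 h6 h7 hF hs).2 h)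
    · exfalso
      apply hg
      rw [h, BD8_Dm_zero, mul_one, mul_inv_cancel] at hs
      exact hs
    · exact Or.inl ((BD8_attr_iff h2 h6 h7 hF hs).2 h)
  refine ⟨c1, ?_, ?_, ?_, c5, ?_, ?_, c8⟩
  · intro g F p hA hF
    obtain ⟨s, hs⟩ := BD8_fix h6 hF hA.2.1 hA.2.2.1
    have hs0 := (BD8_attr_iff h2 h6 h7 hF hs).1 hA
    obtain ⟨e1, e2, -⟩ := BD8_pos_len hs0 hs
    rw [e2]
    exact ⟨e1, hs0⟩
  · intro g p q hp hq
    obtain ⟨F, hF⟩ := h6.1 p hp.1
    obtain ⟨s, hs⟩ := BD8_fix h6 hF hp.2.1 hp.2.2.1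
    have hs0 := (BD8_attr_iff h2 h6 h7 hF hs).1 hp
    rcases c8 g p q.1 hp hq.2.1 with e1 | e1 <;> rcases c8 g p q.2 hp hq.2.2.1 with e2 | e2
    · exact absurd (e1.trans e2.symm) hq.1
    · exact (Prod.ext e1 e2).symm
    · exfalso
      have : q = (p.2, p.1) := Prod.ext e1 e2
      rw [this, BD8_Rm_swap h2 h6 h7 hF hs] at hq
      linarith
    · exact absurd (e1.trans e2.symm) hq.1
  · intro g
    constructor
    · intro h
      set τ := trc g with hτ
      have hτ2 : 4 < τ ^ 2 := by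
        rw [← sq_abs]
        nlinarith
      set r := Real.sqrt (τ ^ 2 - 4) with hr
      have hr0 : 0 < r := Real.sqrt_pos.2 (by linarith)
      have hr2 : r ^ 2 = τ ^ 2 - 4 := Real.sq_sqrt (by linarith)
      obtain ⟨v, hv, ev⟩ := BD8_eigen g ((τ + r) / 2) (by rw [← hτ]; nlinarith)
      obtain ⟨w, hw, ew⟩ := BD8_eigen g ((τ - r) / 2) (by rw [← hτ]; nlinarith)
      have hne : (Projectivization.mk ℝ v hv : Bd) ≠ Projectivization.mk ℝ w hw := by
        intro e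
        rw [Projectivization.mk_eq_mk_iff'] at e
        obtain ⟨a, ha⟩ := e
        have h1 : g • v = ((τ - r) / 2) • v := by
          rw [← ha, BD8_smul_eq, Matrix.mulVec_smul]
          rw [BD8_smul_eq] at ew
          rw [ew, smul_comm]
        rw [ev] at h1
        have h3 : (((τ + r) / 2) - ((τ - r) / 2)) • v = 0 := by
          rw [sub_smul, h1, sub_self]
        rcases smul_eq_zero.1 h3 with h4 | h4
        · linarith
        · exact hv h4
      have hg : ¬ PEq g 1 := by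
        have h1 : trc (1 : SL(2, ℝ)) = 2 := by
          unfold trc
          simp
          norm_num
        rintro (e | e)
        · rw [hτ, e, h1] at h
          norm_num at h
        · rw [hτ, e, BD8_trc_neg, h1] at h
          norm_num at h
      rcases c5 g _ _ hne (BD8_fixpt hv ev) (BD8_fixpt hw ew) hg with h1 | h1
      · exact ⟨_, h1⟩
      · exact ⟨_, h1⟩
    · rintro ⟨p, hp⟩
      obtain ⟨F, s, hF, hs0, hs⟩ := (c1 g p).1 hp
      rw [(BD8_pos_len hs0 hs).2.2]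
      have : 1 < Real.cosh (s / 2) := Real.one_lt_cosh.2 (by positivity)
      linarith
  · intro g h p hp
    refine ⟨?_, ?_, ?_, ?_⟩
    · intro e
      exact hp.1 (smul_left_cancel h e)
    · simp only [mul_smul, inv_smul_smul, hp.2.1]
    · simp only [mul_smul, inv_smul_smul, hp.2.2.1]
    · intro c hc
      have hc' : Cyc p.2 (h⁻¹ • c) p.1 := by
        rw [← h2 h, smul_inv_smul]
        exact hc
      have h1 := hp.2.2.2 _ hc'
      rw [← h2 h, smul_inv_smul] at h1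
      simp only [mul_smul]
      exact h1
  · intro g p hp
    obtain ⟨F, s, hF, hs0, hs⟩ := (c1 g p).1 hp
    have hs' := BD8_inv_peq hs
    have e : (F * Dm s * F⁻¹)⁻¹ = F * Dm (-s) * F⁻¹ := by
      rw [_root_.mul_inv_rev, _root_.mul_inv_rev, inv_inv, BD8_Dm_inv, mul_assoc]
    rw [e] at hs'
    exact (BD8_Rm_swap h2 h6 h7 hF hs').2 (by linarith)

end AdSBend
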