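import Pool.Agent.helper69.AD.GS4

/-!
Module CLG: every leaf has a co-plaque leaf; every point is near a leaf.
-/

open scoped MatrixGroups LinearAlgebra.Projectivization
open Matrix UpperHalfPlane

namespace AdSBend

noncomputable section

open LeafSystem

/-- the leaf nearest to the point `z` above a given leaf -/
theorem CLG_near (hBD6 : BD6_stmt) (hBD12 : BD12_stmt) (hPT3 : PT3_stmt) (hPT5 : PT5_stmt)
    (hGM5 : GM5_stmt) (Γ : Subgroup SL(2, ℝ)) (hΓ : IsClosedSurfaceGroup Γ) (S : LeafSystem Γ)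
    (z : ℍ) (hz : S.OffPt z) (p₀ : Bd × Bd) (hp₀ : p₀ ∈ S.L) (hf : FrontPt p₀ z) :
    ∃ q, q ∈ S.L ∧ S.Near q z ∧ (q = p₀ ∨ Inside p₀ q) := by
  obtain ⟨F, hF⟩ := hBD6.1 p₀ (S.closed p₀ hp₀).1
  obtain ⟨z', hz'⟩ : ∃ z' : ℍ, BehindPt p₀ z' := by
    refine ⟨F • (⟨⟨-1, 1⟩, by simp⟩ : ℍ), ?_⟩
    refine ((hPT5.1 F p₀ _ hF).2).2 ?_
    show (-1 : ℝ) < 0
    norm_num
  have hfin : {q : Bd × Bd | q ∈ S.L ∧ FrontPt q z ∧ (q = p₀ ∨ Inside p₀ q)}.Finite := by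
    refine ((hGM5 Γ hΓ S).1 z z').subset ?_
    rintro q ⟨h1, h2, h3⟩
    refine ⟨h1, mul_neg_of_neg_of_pos h2 ?_⟩
    rcases h3 with h3 | h3
    · rw [h3]; exact hz'
    · exact hPT3.1 p₀ q z' h3 (le_of_lt hz')
  obtain ⟨q, hq, hmax⟩ : ∃ q ∈ {q : Bd × Bd | q ∈ S.L ∧ FrontPt q z ∧ (q = p₀ ∨ Inside p₀ q)},
      ∀ r ∈ {q : Bd × Bd | q ∈ S.L ∧ FrontPt q z ∧ (q = p₀ ∨ Inside p₀ q)}, ¬ Inside q r := by
    have hir : ∀ p : Bd × Bd, ¬ Inside p p := fun p h => hBD12.2.2.2.2.2.1 p p ⟨h, h⟩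
    have htr : ∀ p q r : Bd × Bd, Inside p q → Inside q r → Inside p r := hBD12.2.2.2.1
    have : Std.Irrefl (fun a b : Bd × Bd => Inside b a) := ⟨fun a => hir a⟩
    have : IsTrans (Bd × Bd) (fun a b : Bd × Bd => Inside b a) :=
      ⟨fun a b c h1 h2 => htr c b a h2 h1⟩
    have : IsStrictOrder (Bd × Bd) (fun a b : Bd × Bd => Inside b a) := { }
    have hwf : Set.WellFoundedOn {q : Bd × Bd | q ∈ S.L ∧ FrontPt q z ∧ (q = p₀ ∨ Inside p₀ q)}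
        (fun a b : Bd × Bd => Inside b a) := hfin.wellFoundedOn
    obtain ⟨⟨q, hq⟩, _, hm⟩ := WellFounded.has_min hwf Set.univ
      ⟨⟨p₀, hp₀, hf, Or.inl rfl⟩, trivial⟩
    exact ⟨q, hq, fun r hr => hm ⟨r, hr⟩ trivial⟩
  refine ⟨q, hq.1, ⟨hz, hq.2.1, ?_⟩, hq.2.2⟩
  intro r hr hrf hqr
  refine hmax r ⟨hr, hrf, Or.inr ?_⟩ hqr
  rcases hq.2.2 with h | h
  · rw [← h]; exact hqr
  · exact hBD12.2.2.2.1 p₀ q r h hqr

/-- a disc around a point far away from the imaginary axis -/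
theorem CLG_disc (D : ℝ) : ∃ w : ℍ, ∀ u : ℍ, dist u w ≤ D → 0 < u.re := by
  set C := Real.cosh D with hC
  have hC1 : 1 ≤ C := Real.one_le_cosh D
  refine ⟨(⟨⟨2 * C + 1, 1⟩, by simp⟩ : ℍ), ?_⟩
  intro u hu
  set w : ℍ := (⟨⟨2 * C + 1, 1⟩, by simp⟩ : ℍ) with hw
  have hwre : w.re = 2 * C + 1 := rfl
  have hwim : w.im = 1 := rfl
  have h1 : Real.cosh (dist u w) ≤ C := by
    rw [hC, Real.cosh_le_cosh, abs_of_nonneg dist_nonneg]
    exact hu.trans (le_abs_self D)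
  rw [UpperHalfPlane.cosh_dist, Complex.dist_eq, ← Complex.normSq_eq_norm_sq,
    Complex.normSq_apply] at h1
  have h2 : ((u : ℂ) - (w : ℂ)).re = u.re - (2 * C + 1) := by
    rw [Complex.sub_re]; rfl
  have h3 : ((u : ℂ) - (w : ℂ)).im = u.im - 1 := by
    rw [Complex.sub_im]; rfl
  rw [h2, h3, hwim, mul_one] at h1
  have hy : 0 < u.im := u.im_pos
  by_contra hneg
  push Not at hneg
  have h4 : ((u.re - (2 * C + 1)) * (u.re - (2 * C + 1)) + (u.im - 1) * (u.im - 1)) ≤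
      (C - 1) * (2 * u.im) := by
    rw [← div_le_iff₀ (by positivity)]
    linarith
  have h5 : (2 * C + 1) ^ 2 ≤ (u.re - (2 * C + 1)) * (u.re - (2 * C + 1)) := by nlinarith
  have h6 : (2 * C + 1) ^ 2 + (u.im - 1) ^ 2 ≤ (C - 1) * (2 * u.im) := by nlinarith
  nlinarith [sq_nonneg (u.im - C)]

/-- some translate of a leaf has a point in front of it -/
theorem CLG_translate (hBD6 : BD6_stmt) (hPT5 : PT5_stmt) (hPT1 : PT1_stmt)
    (Γ : Subgroup SL(2, ℝ)) (hΓ : IsClosedSurfaceGroup Γ) (p : Bd × Bd) (hp : p.1 ≠ p.2) :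
    ∃ γ ∈ Γ, ∃ z : ℍ, side z (γ • p.1) (γ • p.2) = 0 ∧ FrontPt p z := by
  obtain ⟨F, hF⟩ := hBD6.1 p hp
  obtain ⟨z₁, hz₁⟩ := hPT5.2.1 p.1 p.2 hp
  obtain ⟨K, hK, hKc⟩ := hΓ.cocompact
  obtain ⟨D, hD⟩ := hK.isBounded.subset_closedBall z₁
  obtain ⟨w, hw⟩ := CLG_disc D
  obtain ⟨δ, hδ, hδK⟩ := hKc (F • w)
  refine ⟨δ⁻¹, Γ.inv_mem hδ, δ⁻¹ • z₁, ?_, ?_⟩
  · exact ((hPT1 δ⁻¹ z₁ p.1 p.2).2.2.1).2 hz₁
  · have h1 : dist (δ • (F • w)) z₁ ≤ D := hD hδK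
    have h2 : dist (F⁻¹ • (δ⁻¹ • z₁)) w ≤ D := by
      rw [← dist_smul F, smul_inv_smul, ← dist_smul δ, smul_inv_smul, dist_comm]
      exact h1
    have h3 := hw _ h2
    have h4 := ((hPT5.1 F p (F⁻¹ • (δ⁻¹ • z₁)) hF).1).2 h3
    rw [smul_inv_smul] at h4
    exact h4

theorem CLG (hBD6 : BD6_stmt) (hBD12 : BD12_stmt) (hPT1 : PT1_stmt) (hPT3 : PT3_stmt)
    (hPT5 : PT5_stmt) (hGM5 : GM5_stmt) (hPN1 : PN1_stmt) (hPN3 : PN3_stmt)
    (hPN4 : PN4_stmt) : CLG_stmt := by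
  intro Γ hΓ S
  have hside : ∀ (z : ℍ) (x y : Bd), side z y x = - side z x y := fun z x y =>
    (hPT1 1 z x y).2.2.2
  refine ⟨?_, ?_⟩
  · intro p hp
    obtain ⟨z, hz⟩ := (hPN3 Γ hΓ S p hp).1
    obtain ⟨γ, hγ, y, hy1, hy2⟩ := CLG_translate hBD6 hPT5 hPT1 Γ hΓ p (S.closed p hp).1
    have hq₁ : ga γ p ∈ S.L := S.inv γ hγ p hp
    have hn1 : ga γ p ≠ p := by
      intro h
      have h1 : γ • p.1 = p.1 := congrArg Prod.fst h
      have h2 : γ • p.2 = p.2 := congrArg Prod.snd h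
      rw [h1, h2] at hy1
      unfold FrontPt at hy2
      linarith
    have hn2 : ga γ p ≠ (p.2, p.1) := by
      intro h
      have h1 : γ • p.1 = p.2 := congrArg Prod.fst h
      have h2 : γ • p.2 = p.1 := congrArg Prod.snd h
      rw [h1, h2, hside] at hy1
      unfold FrontPt at hy2
      linarith
    -- a leaf facing `p` with `z` in front
    obtain ⟨q₀, hq₀, hfac, hfr⟩ : ∃ q₀ ∈ S.L, Facing p q₀ ∧ FrontPt q₀ z := by
      have hoff := hz.1 (ga γ p) hq₁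
      have hswL : sw (ga γ p) ∈ S.L := S.swap _ hq₁
      rcases hPN1 Γ hΓ S p hp (ga γ p) hq₁ hn1 hn2 with h | h | h | h
      · -- Inside p q₁
        refine ⟨sw (ga γ p), hswL, ((hBD12.2.1 p (sw (ga γ p))).2 h), ?_⟩
        rcases lt_or_gt_of_ne hoff with h1 | h1
        · exact absurd h (hz.2.2 _ hq₁ h1)
        · show side z (ga γ p).2 (ga γ p).1 < 0
          rw [hside]
          linarith
      · exfalso
        have h1 := hPT3.1 (ga γ p) p y h hy1.ge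
        unfold FrontPt at hy2
        linarith
      · refine ⟨ga γ p, hq₁, h, ?_⟩
        rcases lt_or_gt_of_ne hoff with h1 | h1
        · exact h1
        · exfalso
          refine hz.2.2 (sw (ga γ p)) hswL ?_ ((hBD12.2.1 p (ga γ p)).1 h)
          show side z (ga γ p).2 (ga γ p).1 < 0
          rw [hside]
          linarith
      · exfalso
        have h0 := (hBD12.1 _ _).1 h
        have h1 := hPT3.2 _ _ y h0 (by
          show 0 ≤ side y (ga γ p).2 (ga γ p).1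
          rw [hside, hy1, neg_zero])
        have h2 : side y p.2 p.1 < 0 := h1
        rw [hside] at h2
        unfold FrontPt at hy2
        linarith
    obtain ⟨q, hq, hqn, hqi⟩ := CLG_near hBD6 hBD12 hPT3 hPT5 hGM5 Γ hΓ S z hz.1 q₀ hq₀ hfr
    refine ⟨q, ?_⟩
    rcases (hPN4 Γ hΓ S p hp q hq z hz).1 hqn with h | h
    · exfalso
      rw [h] at hqi
      rcases hqi with h1 | h1
      · -- p = q₀, facing itself
        rw [← h1] at hfac
        have h2 := (hBD12.2.1 p p).1 hfac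
        obtain ⟨u, hu⟩ := hPT5.2.1 p.1 p.2 (S.closed p hp).1
        have h3 := hPT3.2 p p u hfac hu.ge
        linarith
      · exact hBD12.2.2.2.2.2.2.1 q₀ p ⟨h1, (hBD12.1 _ _).1 hfac⟩
    · exact h
  · rintro ⟨p, hp⟩ z hz
    rcases lt_or_gt_of_ne (hz p hp) with h | h
    · obtain ⟨q, hq, hqn, _⟩ := CLG_near hBD6 hBD12 hPT3 hPT5 hGM5 Γ hΓ S z hz p hp h
      exact ⟨q, hq, hqn⟩
    · have h' : FrontPt (sw p) z := by
        show side z p.2 p.1 < 0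
        rw [hside]
        linarith
      obtain ⟨q, hq, hqn, _⟩ := CLG_near hBD6 hBD12 hPT3 hPT5 hGM5 Γ hΓ S z hz (sw p)
        (S.swap p hp) h'
      exact ⟨q, hq, hqn⟩

end

end AdSBend
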