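import Pool.Agent.helper69.AD.GS2

/-! Module GM5 of the project ad (MP_a29257_gt): finitely many leaves separate two points. -/

open scoped MatrixGroups LinearAlgebra.Projectivization
open Matrix UpperHalfPlane

namespace AdSBend

/-- a compact region containing the segment between two points -/
def GM5_K (R m : ℝ) : Set ℍ := {w : ℍ | w.re ^ 2 + w.im ^ 2 ≤ R ∧ m ≤ w.im}

theorem GM5_compact {R m : ℝ} (hm : 0 < m) : IsCompact (GM5_K R m) := by
  have h1 : GM5_K R m = (fun w : ℍ => (w : ℂ)) ⁻¹' {ζ : ℂ | ζ.re ^ 2 + ζ.im ^ 2 ≤ R ∧ m ≤ ζ.im} := by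
    ext w
    rfl
  rw [h1]
  have hsub : {ζ : ℂ | ζ.re ^ 2 + ζ.im ^ 2 ≤ R ∧ m ≤ ζ.im} ⊆ Set.range (fun w : ℍ => (w : ℂ)) := by
    rintro ζ ⟨-, h2⟩
    exact ⟨⟨ζ, lt_of_lt_of_le hm h2⟩, rfl⟩
  rw [UpperHalfPlane.isOpenEmbedding_coe.isInducing.isCompact_preimage_iff hsub]
  refine Metric.isCompact_of_isClosed_isBounded ?_ ?_
  · have c1 : Continuous fun ζ : ℂ => ζ.re ^ 2 + ζ.im ^ 2 := by fun_prop
    have c2 : Continuous fun ζ : ℂ => ζ.im := by fun_prop
    exact (isClosed_le c1 continuous_const).inter (isClosed_le continuous_const c2)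
  · rw [isBounded_iff_forall_norm_le]
    refine ⟨Real.sqrt R, ?_⟩
    rintro ζ ⟨h2, -⟩
    apply Real.le_sqrt_of_sq_le
    rw [← Complex.normSq_eq_norm_sq, Complex.normSq_apply]
    nlinarith

theorem GM5_onSeg {z z' w : ℍ} {s : ℝ} (h0 : 0 ≤ s) (h1 : s ≤ 1) (h : OnSeg z z' s w) :
    w ∈ GM5_K (max (z.re ^ 2 + z.im ^ 2) (z'.re ^ 2 + z'.im ^ 2)) (min z.im z'.im) := by
  obtain ⟨e1, e2⟩ := h
  unfold segRe at e1
  unfold segSq at e2
  have hz := z.im_pos
  have hz' := z'.im_pos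
  have hw := w.im_pos
  set M := max (z.re ^ 2 + z.im ^ 2) (z'.re ^ 2 + z'.im ^ 2) with hM
  have hM1 : z.re ^ 2 + z.im ^ 2 ≤ M := le_max_left _ _
  have hM2 : z'.re ^ 2 + z'.im ^ 2 ≤ M := le_max_right _ _
  set m := min z.im z'.im with hm
  have hm1 : m ≤ z.im := min_le_left _ _
  have hm2 : m ≤ z'.im := min_le_right _ _
  have hm0 : 0 < m := lt_min hz hz'
  constructor
  · rw [e2]
    nlinarith
  · have h2 : w.im ^ 2 = (1 - s) * z.im ^ 2 + s * z'.im ^ 2
        + s * (1 - s) * (z.re - z'.re) ^ 2 := by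
      have : w.im ^ 2 = (1 - s) * (z.re ^ 2 + z.im ^ 2) + s * (z'.re ^ 2 + z'.im ^ 2)
          - w.re ^ 2 := by linarith
      rw [this, e1]
      ring
    have h3 : m ^ 2 ≤ z.im ^ 2 := by nlinarith
    have h4 : m ^ 2 ≤ z'.im ^ 2 := by nlinarith
    have h5 : 0 ≤ s * (1 - s) * (z.re - z'.re) ^ 2 :=
      mul_nonneg (mul_nonneg h0 (by linarith)) (sq_nonneg _)
    have h6 : m ^ 2 ≤ w.im ^ 2 := by
      rw [h2]
      nlinarith
    exact (pow_le_pow_iff_left₀ hm0.le hw.le (by norm_num)).1 h6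

theorem GM5 (h4 : GM4_stmt) (p2 : PT2_stmt) (p3 : PT3_stmt) (p5 : PT5_stmt) : GM5_stmt := by
  intro Γ hΓ S
  have key : ∀ z z' : ℍ,
      {p : Bd × Bd | p ∈ S.L ∧ side z p.1 p.2 * side z' p.1 p.2 ≤ 0}.Finite := by
    intro z z'
    set K := GM5_K (max (z.re ^ 2 + z.im ^ 2) (z'.re ^ 2 + z'.im ^ 2)) (min z.im z'.im) with hK
    have hKc : IsCompact K := GM5_compact (lt_min z.im_pos z'.im_pos)
    refine (h4 Γ hΓ S K hKc).subset ?_
    rintro p ⟨hp, hs⟩
    refine ⟨hp, ?_⟩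
    set a := side z p.1 p.2 with ha
    set b := side z' p.1 p.2 with hb
    obtain ⟨s, hs0, hs1, hs2⟩ : ∃ s : ℝ, 0 ≤ s ∧ s ≤ 1 ∧ (1 - s) * a + s * b = 0 := by
      by_cases hab : a = b
      · refine ⟨0, le_rfl, zero_le_one, ?_⟩
        have : a = 0 := by
          rw [← hab] at hs
          nlinarith [sq_nonneg a]
        rw [this]
        ring
      · have hab' : a - b ≠ 0 := sub_ne_zero.2 hab
        refine ⟨a / (a - b), ?_, ?_, ?_⟩
        · rcases lt_or_gt_of_ne hab' with h | h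
          · have : a ≤ 0 := by nlinarith
            exact div_nonneg_of_nonpos this h.le
          · have : 0 ≤ a := by nlinarith
            exact div_nonneg this h.le
        · rcases lt_or_gt_of_ne hab' with h | h
          · have : 0 ≤ b := by nlinarith
            rw [div_le_one_of_neg h]
            linarith
          · have : b ≤ 0 := by nlinarith
            rw [div_le_one h]
            linarith
        · field_simp
          ring
    obtain ⟨w, hw⟩ := p2.1 z z' s hs0 hs1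
    refine ⟨w, GM5_onSeg hs0 hs1 hw, ?_⟩
    rw [p2.2.1 z z' w s hw p.1 p.2]
    exact hs2
  refine ⟨fun z z' => (key z z').subset ?_, key, ?_⟩
  · rintro p ⟨hp, hs⟩
    exact ⟨hp, le_of_lt hs⟩
  · intro p q hp hq
    obtain ⟨z, hz⟩ := p5.2.1 p.1 p.2 hp
    obtain ⟨z', hz'⟩ := p5.2.1 q.1 q.2 hq
    refine (key z z').subset ?_
    rintro r ⟨hr, h1, h2⟩
    refine ⟨hr, ?_⟩
    have e1 : 0 < side z r.1 r.2 := p3.1 p r z h1 hz.ge
    have e2 : side z' r.1 r.2 < 0 := by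
      by_contra hc
      have := p3.1 r q z' h2 (not_lt.1 hc)
      linarith
    nlinarith

end AdSBend
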