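import Pool.Agent.helper69.AD.GS3

/-!
Module TW3: dependence of the twist deformations on the parameters.
-/

open scoped MatrixGroups LinearAlgebra.Projectivization
open Matrix UpperHalfPlane

namespace AdSBend

noncomputable section

open LeafSystem

theorem TW3_trc_inv (g : SL(2, ℝ)) : trc g⁻¹ = trc g := by
  unfold trc
  rw [Matrix.SpecialLinearGroup.coe_inv, Matrix.adjugate_fin_two]
  simp [add_comm]

/-- product rule for matrix entries -/
theorem TW3_mulDeriv (P Q : ℝ → Matrix (Fin 2) (Fin 2) ℝ) (P' Q' : Matrix (Fin 2) (Fin 2) ℝ)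
    (hP : ∀ i j, HasDerivAt (fun s => P s i j) (P' i j) 0)
    (hQ : ∀ i j, HasDerivAt (fun s => Q s i j) (Q' i j) 0) (i j : Fin 2) :
    HasDerivAt (fun s => (P s * Q s) i j) ((P' * Q 0 + P 0 * Q') i j) 0 := by
  simp only [Matrix.mul_apply, Fin.sum_univ_two, Matrix.add_apply]
  have h := ((hP i 0).fun_mul (hQ 0 j)).fun_add ((hP i 1).fun_mul (hQ 1 j))
  refine h.congr_deriv ?_
  ring

theorem TW3_hM_sq : hM * hM = 1 := by
  unfold hM
  ext i j
  fin_cases i <;> fin_cases j <;> simp [Matrix.mul_apply, Fin.sum_univ_two]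

/-- the axis squares to one and the twist is explicit -/
theorem TW3_axis_sq (hTW1 : TW1_stmt) (hBD6 : BD6_stmt) (hBD8 : BD8_stmt) (g : SL(2, ℝ))
    (hg : 2 < |trc g|) : axis g * axis g = 1 ∧
      ∀ s, (twS g s).1 = Real.cosh (s / 2) • (1 : Matrix (Fin 2) (Fin 2) ℝ)
        + Real.sinh (s / 2) • axis g := by
  obtain ⟨p, hp⟩ := (hBD8.2.2.2.1 g).1 hg
  obtain ⟨F, hF⟩ := hBD6.1 p hp.1
  refine ⟨?_, fun s => (hTW1.1 g F p s hp hF).2.2⟩
  have h1 := (hTW1.1 g F p 0 hp hF).2.1
  have h2 : (F⁻¹).1 * F.1 = 1 := by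
    rw [← Matrix.SpecialLinearGroup.coe_mul, inv_mul_cancel, Matrix.SpecialLinearGroup.coe_one]
  have h3 : F.1 * (F⁻¹).1 = 1 := by
    rw [← Matrix.SpecialLinearGroup.coe_mul, mul_inv_cancel, Matrix.SpecialLinearGroup.coe_one]
  rw [h1]
  calc F.1 * hM * (F⁻¹).1 * (F.1 * hM * (F⁻¹).1)
      = F.1 * hM * ((F⁻¹).1 * F.1) * hM * (F⁻¹).1 := by simp only [Matrix.mul_assoc]
    _ = F.1 * (hM * hM) * (F⁻¹).1 := by rw [h2, Matrix.mul_one, Matrix.mul_assoc F.1 hM hM]
    _ = 1 := by rw [TW3_hM_sq, Matrix.mul_one, h3]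

/-- the reversed leaf: the axis changes its sign -/
theorem TW3_axis_sw (hTW1 : TW1_stmt) (hGM1 : GM1_stmt) (hGM2 : GM2_stmt)
    (Γ : Subgroup SL(2, ℝ)) (hΓ : IsClosedSurfaceGroup Γ) (S : LeafSystem Γ)
    (r : SL(2, ℝ) → SL(2, ℝ)) (hr : IsPRep Γ r) (hr2 : ∀ p ∈ S.L, 2 < |trc (r (gen Γ p))|)
    (p : Bd × Bd) (hp : p ∈ S.L) :
    axis (r (gen Γ (sw p))) = - axis (r (gen Γ p)) := by
  have hcl := S.closed p hp
  have hcl' := S.closed (sw p) (S.swap p hp)
  have hg := hGM1 Γ hΓ p hcl
  have hg' := hGM1 Γ hΓ (sw p) hcl'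
  have h1 : PEq (gen Γ (sw p)) (gen Γ p)⁻¹ := (hGM2 Γ hΓ).2.2 p hcl
  have hone : PEq (r 1) 1 := by
    have h := hr 1 Γ.one_mem 1 Γ.one_mem 1 Γ.one_mem (Or.inl (by rw [mul_one]))
    rcases h with h | h
    · left
      have h' : r 1 * 1 = r 1 * r 1 := by rw [mul_one]; exact h
      exact (mul_left_cancel h').symm
    · right
      have h' : r 1 * 1 = r 1 * (-(r 1)) := by rw [mul_one, mul_neg]; exact h
      have h'' := mul_left_cancel h'
      rw [← neg_neg (r 1), ← h'']
  have h2 : PEq 1 (gen Γ (sw p) * gen Γ p) := by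
    rcases h1 with h | h
    · left; rw [h, inv_mul_cancel]
    · right; rw [h, neg_mul, inv_mul_cancel, neg_neg]
  have h3 := hr _ hg'.1 _ hg.1 1 Γ.one_mem h2
  have h4 : PEq (r (gen Γ (sw p))) (r (gen Γ p))⁻¹ := by
    rcases hone with ho | ho <;> rcases h3 with h | h <;> rw [ho] at h
    · left; exact eq_inv_of_mul_eq_one_left h.symm
    · right
      have h' : -(r (gen Γ (sw p))) * r (gen Γ p) = 1 := by rw [neg_mul]; exact h.symm
      rw [← eq_inv_of_mul_eq_one_left h', neg_neg]
    · right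
      have h' : -(r (gen Γ (sw p))) * r (gen Γ p) = 1 := by rw [neg_mul, ← h, neg_neg]
      rw [← eq_inv_of_mul_eq_one_left h', neg_neg]
    · left
      have h' : r (gen Γ (sw p)) * r (gen Γ p) = 1 := by
        have := congrArg (fun x => -x) h
        simpa using this.symm
      exact eq_inv_of_mul_eq_one_left h'
  have h5 := hr2 p hp
  have h6 : axis (r (gen Γ p))⁻¹ = - axis (r (gen Γ p)) := (hTW1.2.2.1 _ 0 0 h5).2.1
  have h7 : 2 < |trc (r (gen Γ p))⁻¹| := by rw [TW3_trc_inv]; exact h5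
  rcases h4 with h | h
  · rw [h, h6]
  · rw [h, (hTW1.2.2.1 _ 0 0 h7).2.2.2.1, h6]

/-- derivative of the twist in its parameter -/
theorem TW3_twDeriv {K : Type} [DecidableEq K] (M : Matrix (Fin 2) (Fin 2) ℝ) (hM2 : M * M = 1)
    (T : K → ℝ) (k c : K) (i j : Fin 2) :
    HasDerivAt (fun s : ℝ => (Real.cosh (-((T + s • Pi.single k (1 : ℝ) : K → ℝ) c) / 2) •
        (1 : Matrix (Fin 2) (Fin 2) ℝ)
      + Real.sinh (-((T + s • Pi.single k (1 : ℝ) : K → ℝ) c) / 2) • M) i j)
      ((((if c = k then (-(1 / 2) : ℝ) else 0) • M) *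
        (Real.cosh (-(T c) / 2) • (1 : Matrix (Fin 2) (Fin 2) ℝ)
          + Real.sinh (-(T c) / 2) • M)) i j) 0 := by
  have e1 : (((if c = k then (-(1 / 2) : ℝ) else 0) • M) *
        (Real.cosh (-(T c) / 2) • (1 : Matrix (Fin 2) (Fin 2) ℝ)
          + Real.sinh (-(T c) / 2) • M)) =
      (if c = k then (-(1 / 2) : ℝ) else 0) • (Real.cosh (-(T c) / 2) • M
        + Real.sinh (-(T c) / 2) • (1 : Matrix (Fin 2) (Fin 2) ℝ)) := by
    rw [Matrix.smul_mul, Matrix.mul_add, Matrix.mul_smul, Matrix.mul_smul, Matrix.mul_one, hM2]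
  rw [e1]
  set δ : ℝ := if c = k then 1 else 0 with hδ
  have e2 : ∀ s : ℝ, (T + s • Pi.single k (1 : ℝ) : K → ℝ) c = T c + s * δ := by
    intro s
    rw [Pi.add_apply, Pi.smul_apply, Pi.single_apply, smul_eq_mul]
  have e3 : (if c = k then (-(1 / 2) : ℝ) else 0) = -(δ / 2) := by
    rw [hδ]; split_ifs <;> norm_num
  rw [e3]
  have hlin : HasDerivAt (fun s : ℝ => -((T + s • Pi.single k (1 : ℝ) : K → ℝ) c) / 2) (-(δ / 2)) 0 := by
    have h0 : HasDerivAt (fun s : ℝ => -(T c + s * δ) / 2) (-(δ / 2)) 0 := by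
      have h1 : HasDerivAt (fun s : ℝ => s * δ) δ 0 := by
        simpa using (hasDerivAt_id (0 : ℝ)).mul_const δ
      have h2 := ((h1.const_add (T c)).fun_neg).div_const 2
      refine h2.congr_deriv ?_
      ring
    refine h0.congr_of_eventuallyEq (Filter.Eventually.of_forall fun s => ?_)
    simp only [e2]
  have hc := hlin.cosh
  have hs := hlin.sinh
  have e4 : -((T + (0 : ℝ) • Pi.single k (1 : ℝ) : K → ℝ) c) / 2 = -(T c) / 2 := by
    rw [e2]; ring
  rw [e4] at hc hs
  have h := (hc.mul_const ((1 : Matrix (Fin 2) (Fin 2) ℝ) i j)).fun_add (hs.mul_const (M i j))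
  simp only [Matrix.add_apply, Matrix.smul_apply, smul_eq_mul]
  refine h.congr_deriv ?_
  ring

/-- one step of the induction: derivative after the crossing of one more leaf -/
theorem TW3_step {K : Type} [DecidableEq K] (M : Matrix (Fin 2) (Fin 2) ℝ) (hM2 : M * M = 1)
    (T : K → ℝ) (k c : K) (P Q : (K → ℝ) → Matrix (Fin 2) (Fin 2) ℝ)
    (D X : Matrix (Fin 2) (Fin 2) ℝ)
    (hP : ∀ i j, HasDerivAt (fun s : ℝ => P (T + s • Pi.single k 1) i j) ((D * P T) i j) 0)
    (hX : X * P T = P T * M)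
    (hQ : ∀ T : K → ℝ, Q T = P T * (Real.cosh (-(T c) / 2) •
      (1 : Matrix (Fin 2) (Fin 2) ℝ) + Real.sinh (-(T c) / 2) • M)) (i j : Fin 2) :
    HasDerivAt (fun s : ℝ => Q (T + s • Pi.single k 1) i j)
      (((D + (if c = k then (-(1 / 2) : ℝ) else 0) • X) * Q T) i j) 0 := by
  obtain ⟨R, hR⟩ : ∃ R : ℝ → Matrix (Fin 2) (Fin 2) ℝ, ∀ s, R s =
    Real.cosh (-((T + s • Pi.single k (1 : ℝ) : K → ℝ) c) / 2) •
        (1 : Matrix (Fin 2) (Fin 2) ℝ)
      + Real.sinh (-((T + s • Pi.single k (1 : ℝ) : K → ℝ) c) / 2) • M := ⟨_, fun _ => rfl⟩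
  obtain ⟨P1, hP1⟩ : ∃ P1 : ℝ → Matrix (Fin 2) (Fin 2) ℝ, ∀ s, P1 s =
    P (T + s • Pi.single k (1 : ℝ)) := ⟨_, fun _ => rfl⟩
  have e0 : (T + (0 : ℝ) • Pi.single k (1 : ℝ) : K → ℝ) = T := by rw [zero_smul, add_zero]
  have hR0 : R 0 = Real.cosh (-(T c) / 2) • (1 : Matrix (Fin 2) (Fin 2) ℝ)
      + Real.sinh (-(T c) / 2) • M := by rw [hR, e0]
  have hP0 : P1 0 = P T := by rw [hP1, e0]
  have h1 : ∀ i j, HasDerivAt (fun s => R s i j)
      ((((if c = k then (-(1 / 2) : ℝ) else 0) • M) * R 0) i j) 0 := by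
    intro i j
    rw [hR0]
    simp only [hR]
    exact TW3_twDeriv M hM2 T k c i j
  have h2 : ∀ i j, HasDerivAt (fun s => P1 s i j) ((D * P T) i j) 0 := by
    intro i j
    simp only [hP1]
    exact hP i j
  have h3 := TW3_mulDeriv P1 R (D * P T) _ h2 h1 i j
  have h4 : (fun s : ℝ => Q (T + s • Pi.single k 1) i j) = fun s => (P1 s * R s) i j := by
    funext s
    rw [hQ, hP1, hR]
  have h5 : D * P T * R 0 + P1 0 * ((if c = k then (-(1 / 2) : ℝ) else 0) • M * R 0) =
      (D + (if c = k then (-(1 / 2) : ℝ) else 0) • X) * Q T := by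
    rw [hQ T, hP0, ← hR0, ← Matrix.mul_assoc, ← Matrix.mul_assoc, ← Matrix.add_mul,
      Matrix.mul_smul, ← hX, ← Matrix.smul_mul, ← Matrix.add_mul]
  rw [h4, ← h5]
  exact h3

/-- smoothness of the twist in its parameter -/
theorem TW3_twSmooth {K : Type} [Fintype K] (M : Matrix (Fin 2) (Fin 2) ℝ) (c : K)
    (i j : Fin 2) :
    ContDiff ℝ 3 (fun T : K → ℝ => (Real.cosh (-(T c) / 2) • (1 : Matrix (Fin 2) (Fin 2) ℝ)
      + Real.sinh (-(T c) / 2) • M) i j) := by
  simp only [Matrix.add_apply, Matrix.smul_apply, smul_eq_mul]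
  have h0 : ContDiff ℝ 3 (fun T : K → ℝ => -(T c) / 2) :=
    ((contDiff_apply ℝ ℝ c).neg).div_const 2
  exact ((Real.contDiff_cosh.comp h0).mul contDiff_const).add
    ((Real.contDiff_sinh.comp h0).mul contDiff_const)

theorem TW3 (hTW1 : TW1_stmt) (hBD6 : BD6_stmt) (hBD8 : BD8_stmt) (hPT1 : PT1_stmt)
    (hGM1 : GM1_stmt) (hGM2 : GM2_stmt) (hGM5 : GM5_stmt) (hPN3 : PN3_stmt)
    (hPN6 : PN6_stmt) : TW3_stmt := by
  intro Γ hΓ S K _ _ cls r z₀ A Ax hr hr2 _hcls hclsw hz₀ hA hAx
  have hside : ∀ (z : ℍ) (x y : Bd), side z y x = - side z x y := fun z x y =>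
    (hPT1 1 z x y).2.2.2
  have hfin : ∀ z : ℍ, {p : Bd × Bd | p ∈ S.L ∧ SepPts p.1 p.2 z₀ z}.Finite := fun z =>
    ((hGM5 Γ hΓ S).1 z₀ z)
  have hfin2 : ∀ z : ℍ, {p : Bd × Bd | p ∈ S.L ∧ FrontPt p z₀ ∧ BehindPt p z}.Finite := by
    intro z
    refine (hfin z).subset ?_
    rintro p ⟨h1, h2, h3⟩
    exact ⟨h1, mul_neg_of_neg_of_pos h2 h3⟩
  have hfin3 : ∀ (z : ℍ) (k : K),
      {p : Bd × Bd | p ∈ S.L ∧ FrontPt p z₀ ∧ BehindPt p z ∧ cls p = k}.Finite := by
    intro z k
    refine (hfin2 z).subset ?_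
    rintro p ⟨h1, h2, h3, _⟩
    exact ⟨h1, h2, h3⟩
  -- the induction
  have key : ∀ (n : ℕ) (z : ℍ), S.OffPt z →
      {p : Bd × Bd | p ∈ S.L ∧ SepPts p.1 p.2 z₀ z}.ncard ≤ n →
      (∀ i j, ContDiff ℝ 3 (fun T : K → ℝ => (A T z).1 i j)) ∧
      (∀ T k i j, HasDerivAt (fun s : ℝ => (A (T + s • Pi.single k 1) z).1 i j)
        (((∑ᶠ p ∈ {p : Bd × Bd | p ∈ S.L ∧ FrontPt p z₀ ∧ BehindPt p z ∧ cls p = k},
          (-(1 / 2) : ℝ) • Ax T p) * (A T z).1) i j) 0) := by
    intro n
    induction n with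
    | zero =>
      intro z hz hcard
      have hemp : {p : Bd × Bd | p ∈ S.L ∧ SepPts p.1 p.2 z₀ z} = ∅ := by
        rw [← Set.ncard_eq_zero (hfin z)]
        omega
      have hsame : S.SamePl z₀ z := by
        intro p hp hs
        have : p ∈ ({p : Bd × Bd | p ∈ S.L ∧ SepPts p.1 p.2 z₀ z} : Set (Bd × Bd)) := ⟨hp, hs⟩
        rw [hemp] at this
        exact this
      have hA1 : ∀ T, A T z = 1 := by
        intro T
        rw [← (hA T).1.1 z₀ z hz₀ hz hsame]
        exact (hA T).2
      refine ⟨?_, ?_⟩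
      · intro i j
        simp only [hA1]
        exact contDiff_const
      · intro T k i j
        have hemp2 : {p : Bd × Bd | p ∈ S.L ∧ FrontPt p z₀ ∧ BehindPt p z ∧ cls p = k} = ∅ := by
          rw [Set.eq_empty_iff_forall_notMem]
          rintro p ⟨h1, h2, h3, _⟩
          exact hsame p h1 (mul_neg_of_neg_of_pos h2 h3)
        rw [hemp2, finsum_mem_empty, Matrix.zero_mul]
        simp only [hA1]
        exact hasDerivAt_const 0 _
    | succ n ih =>
      intro z hz hcard
      by_cases hsame : S.SamePl z₀ z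
      · apply ih z hz
        have hemp : {p : Bd × Bd | p ∈ S.L ∧ SepPts p.1 p.2 z₀ z} = ∅ := by
          rw [Set.eq_empty_iff_forall_notMem]
          rintro p ⟨h1, h2⟩
          exact hsame p h1 h2
        rw [hemp, Set.ncard_empty]
        omega
      · obtain ⟨p, w, hw, hacr, hset, hpn, _⟩ := (hPN6 Γ hΓ S).2 z₀ z hz₀ hz hsame
        have hpL : p ∈ S.L := hacr.1
        have hcardw : {q : Bd × Bd | q ∈ S.L ∧ SepPts q.1 q.2 z₀ w}.ncard ≤ n := by
          have hlt : {q : Bd × Bd | q ∈ S.L ∧ SepPts q.1 q.2 z₀ w}.ncard <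
              {q : Bd × Bd | q ∈ S.L ∧ SepPts q.1 q.2 z₀ z}.ncard := by
            apply Set.ncard_lt_ncard _ (hfin z)
            rw [Set.ssubset_iff_of_subset]
            · refine ⟨p, ?_, hpn⟩
              rw [← hset]
              right; left; rfl
            · rw [← hset]
              exact Set.subset_union_left
          omega
        obtain ⟨ihs, ihd⟩ := ih w hw hcardw
        have hnear : S.Near p w := ((hPN3 Γ hΓ S p hpL).2.2.2.2 w z hw hz hacr).1
        set g := r (gen Γ p) with hg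
        obtain ⟨hsq, htw⟩ := TW3_axis_sq hTW1 hBD6 hBD8 g (hr2 p hpL)
        have hAz : ∀ T, A T z = A T w * twS g (-T (cls p)) := fun T =>
          (hA T).1.2 w z p hw hz hacr
        have hAz1 : ∀ T, (A T z).1 = (A T w).1 * (Real.cosh (-(T (cls p)) / 2) •
            (1 : Matrix (Fin 2) (Fin 2) ℝ) + Real.sinh (-(T (cls p)) / 2) • axis g) := by
          intro T
          rw [hAz T, Matrix.SpecialLinearGroup.coe_mul, ← htw]
        refine ⟨?_, ?_⟩
        · intro i j
          simp only [hAz1]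
          simp only [Matrix.mul_apply, Fin.sum_univ_two]
          exact ((ihs i 0).mul (TW3_twSmooth (axis g) (cls p) 0 j)).add
            ((ihs i 1).mul (TW3_twSmooth (axis g) (cls p) 1 j))
        · intro T k i j
          have hmem : ∀ q ∈ S.L, FrontPt q z₀ → (BehindPt q z ↔ q = p ∨ BehindPt q w) := by
            intro q hq hf
            constructor
            · intro hb
              have h1 : q ∈ {q : Bd × Bd | q ∈ S.L ∧ SepPts q.1 q.2 z₀ z} :=
                ⟨hq, mul_neg_of_neg_of_pos hf hb⟩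
              rw [← hset] at h1
              rcases h1 with h1 | h1 | h1
              · right
                have h2 := h1.2
                unfold SepPts at h2
                unfold FrontPt at hf
                unfold BehindPt
                by_contra h3
                have h4 := mul_nonneg_of_nonpos_of_nonpos hf.le (not_lt.1 h3)
                linarith
              · left; exact h1
              · exfalso
                have h2 : q = (p.2, p.1) := h1
                rw [h2] at hb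
                have h3 := hacr.2.2.1
                unfold BehindPt at hb h3
                simp only at hb
                rw [hside] at hb
                linarith
            · rintro (h | h)
              · rw [h]; exact hacr.2.2.1
              · have h1 : q ∈ {q : Bd × Bd | q ∈ S.L ∧ SepPts q.1 q.2 z₀ z} := by
                  rw [← hset]
                  left
                  exact ⟨hq, mul_neg_of_neg_of_pos hf h⟩
                have h2 := h1.2
                unfold SepPts at h2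
                unfold FrontPt at hf
                unfold BehindPt
                by_contra h3
                have h4 := mul_nonneg_of_nonpos_of_nonpos hf.le (not_lt.1 h3)
                linarith
          have hpf : FrontPt p z₀ := by
            have h1 : p ∈ {q : Bd × Bd | q ∈ S.L ∧ SepPts q.1 q.2 z₀ z} := by
              rw [← hset]; right; left; rfl
            have h2 := h1.2
            have h3 := hacr.2.2.1
            unfold SepPts at h2
            unfold BehindPt at h3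
            unfold FrontPt
            by_contra h4
            have h5 := mul_nonneg (not_lt.1 h4) h3.le
            linarith
          have hpw : ¬ BehindPt p w := by
            intro h
            exact hpn ⟨hpL, mul_neg_of_neg_of_pos hpf h⟩
          have hinv : ((A T w)⁻¹).1 * (A T w).1 = 1 := by
            rw [← Matrix.SpecialLinearGroup.coe_mul, inv_mul_cancel,
              Matrix.SpecialLinearGroup.coe_one]
          have hAxp : Ax T p * (A T w).1 = (A T w).1 * axis g := by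
            rw [hAx T p hpL w hnear, Matrix.mul_assoc, hinv, Matrix.mul_one]
          have hstep := TW3_step (axis g) hsq T k (cls p) (fun T => (A T w).1)
            (fun T => (A T z).1)
            (∑ᶠ p ∈ {p : Bd × Bd | p ∈ S.L ∧ FrontPt p z₀ ∧ BehindPt p w ∧ cls p = k},
              (-(1 / 2) : ℝ) • Ax T p) (Ax T p) (fun i j => ihd T k i j) hAxp hAz1 i j
          refine hstep.congr_deriv ?_
          refine congrFun (congrFun (congrArg (fun M => M * (A T z).1) ?_) i) j
          by_cases hk : cls p = k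
          · have hins : {q : Bd × Bd | q ∈ S.L ∧ FrontPt q z₀ ∧ BehindPt q z ∧ cls q = k} =
                insert p {q : Bd × Bd | q ∈ S.L ∧ FrontPt q z₀ ∧ BehindPt q w ∧ cls q = k} := by
              ext q
              simp only [Set.mem_ofPred_eq, Set.mem_insert_iff]
              constructor
              · rintro ⟨h1, h2, h3, h4⟩
                rcases (hmem q h1 h2).1 h3 with h | h
                · left; exact h
                · right; exact ⟨h1, h2, h, h4⟩
              · rintro (h | ⟨h1, h2, h3, h4⟩)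
                · rw [h]; exact ⟨hpL, hpf, hacr.2.2.1, hk⟩
                · exact ⟨h1, h2, (hmem q h1 h2).2 (Or.inr h3), h4⟩
            rw [hins, finsum_mem_insert _ (fun h => hpw h.2.2.1) (hfin3 w k), if_pos hk,
              add_comm]
          · have hins : {q : Bd × Bd | q ∈ S.L ∧ FrontPt q z₀ ∧ BehindPt q z ∧ cls q = k} =
                {q : Bd × Bd | q ∈ S.L ∧ FrontPt q z₀ ∧ BehindPt q w ∧ cls q = k} := by
              ext q
              simp only [Set.mem_ofPred_eq]
              constructor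
              · rintro ⟨h1, h2, h3, h4⟩
                rcases (hmem q h1 h2).1 h3 with h | h
                · exfalso; rw [h] at h4; exact hk h4
                · exact ⟨h1, h2, h, h4⟩
              · rintro ⟨h1, h2, h3, h4⟩
                exact ⟨h1, h2, (hmem q h1 h2).2 (Or.inr h3), h4⟩
            rw [hins, if_neg hk, zero_smul, add_zero]
  intro z hz
  obtain ⟨k1, k2⟩ := key _ z hz le_rfl
  refine ⟨k1, hfin2 z, k2, ?_⟩
  intro T p hp
  obtain ⟨u, hu⟩ := (hPN3 Γ hΓ S p hp).1
  obtain ⟨v, hv⟩ := (hPN3 Γ hΓ S (sw p) (S.swap p hp)).1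
  have hacr := (hPN3 Γ hΓ S p hp).2.1 u v hu hv
  set g := r (gen Γ p) with hg
  obtain ⟨hsq, htw⟩ := TW3_axis_sq hTW1 hBD6 hBD8 g (hr2 p hp)
  have hAv : A T v = A T u * twS g (-T (cls p)) := (hA T).1.2 u v p hu.1 hv.1 hacr
  rw [hAx T (sw p) (S.swap p hp) v hv, hAx T p hp u hu,
    TW3_axis_sw hTW1 hGM1 hGM2 Γ hΓ S r hr hr2 p hp, hAv]
  set E := twS g (-T (cls p)) with hE
  have hcomm : E.1 * axis g = axis g * E.1 := by
    rw [hE, htw, Matrix.add_mul, Matrix.mul_add, Matrix.smul_mul, Matrix.smul_mul,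
      Matrix.mul_smul, Matrix.mul_smul, Matrix.one_mul, Matrix.mul_one]
  have hEinv : E.1 * (E⁻¹).1 = 1 := by
    rw [← Matrix.SpecialLinearGroup.coe_mul, mul_inv_cancel, Matrix.SpecialLinearGroup.coe_one]
  rw [_root_.mul_inv_rev, Matrix.SpecialLinearGroup.coe_mul, Matrix.SpecialLinearGroup.coe_mul,
    Matrix.mul_neg, Matrix.neg_mul, Matrix.mul_assoc (A T u).1 E.1 (axis g), hcomm]
  congr 1
  calc (A T u).1 * (axis g * E.1) * ((E⁻¹).1 * ((A T u)⁻¹).1)
      = (A T u).1 * axis g * (E.1 * (E⁻¹).1) * ((A T u)⁻¹).1 := by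
        simp only [Matrix.mul_assoc]
    _ = (A T u).1 * axis g * ((A T u)⁻¹).1 := by rw [hEinv, Matrix.mul_one]

end

end AdSBend
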